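import Pool.Agent.Helper29.GW.Base
import Pool.Agent.Helper29.MW.Eq
import Pool.Agent.Helper29.GW.Eq
import Pool.Agent.Helper58.MW.Path

/-!
# Second-order properties whose models have only short paths

`bounded_path_of_tree_sem`: the theorem on the longest path, for properties invariant under the guarded second-order game, follows
from the theorem on the tree-width for such properties.
-/

set_option autoImplicit false

namespace Pool.Agent.Helper29.GW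

open Filter Pool.Agent.Helper20.Spectra Pool.Agent.Helper20.OP Pool.Agent.Helper29.TD Pool.Agent.Helper29.TW
  Pool.Agent.Helper29.CW Pool.Agent.Helper29.MW

variable {S : Type} {ar : S → ℕ}

/-- the theorem on the tree-width -/
def StmtTreeSem : Prop := ∀ {S : Type} {ar : S → ℕ} [Finite S] (w : ℕ → ℕ)
    (_ : ∀ d, ∀ᶠ n in atTop, E d (w n) ≤ n)
    (Φ : ∀ M : Type, Interp S ar M → Prop) (n₀ q₀ : ℕ)
    (_ : ∀ (M N : Type) (I : Interp S ar M) (J : Interp S ar N), GEq n₀ q₀ I J → (Φ M I ↔ Φ N J))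
    (N1 : ℕ) (_ : ∀ (n : ℕ) (I : Interp S ar (Fin n)), N1 ≤ n → Φ _ I → TwLe I (w n)),
    (∃ L, ∀ (n : ℕ) (I : Interp S ar (Fin n)), 1 ≤ n → Φ _ I → TwLe I L) ∧
      UltPeriodic {n : ℕ | 1 ≤ n ∧ ∃ I : Interp S ar (Fin n), Φ _ I}

theorem bounded_path_of_tree_sem (hT : StmtTreeSem) [Finite S] (w : ℕ → ℕ)
    (hw : ∀ d, ∀ᶠ n in atTop, E d (w n) ≤ n)
    (Φ : ∀ M : Type, Interp S ar M → Prop) (n₀ q₀ : ℕ)
    (hΦ : ∀ (M N : Type) (I : Interp S ar M) (J : Interp S ar N), GEq n₀ q₀ I J → (Φ M I ↔ Φ N J))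
    (N1 : ℕ) (h1 : ∀ (n : ℕ) (I : Interp S ar (Fin n)), N1 ≤ n → Φ _ I → PathLe I (w n)) :
    (∃ L, ∀ (n : ℕ) (I : Interp S ar (Fin n)), 1 ≤ n → Φ _ I → PathLe I L) ∧
      UltPeriodic {n : ℕ | 1 ≤ n ∧ ∃ I : Interp S ar (Fin n), Φ _ I} := by
  classical
  obtain ⟨⟨K, hK⟩, hper⟩ := hT w hw Φ n₀ q₀ hΦ N1 (fun n I hn hI => by
    obtain ⟨C, hC⟩ := dec_of_pathLe (h1 n I hn hI)
    exact TreeDec.mono (by omega) hC.treeDec)
  refine ⟨?_, hper⟩
  obtain ⟨ψ, hψ⟩ := pord_def (S := S) (ar := ar)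
  obtain ⟨n₁, q₁, h2⟩ := msat_meq ψ
  have hinv : ∀ (M N : Type) (I : Interp (Option S) (qAr ar) M) (J : Interp (Option S) (qAr ar) N),
      GEq (max n₀ n₁) (max q₀ q₁) I J → ((Φ M (rI I) ∧ POrd I) ↔ (Φ N (rI J) ∧ POrd J)) := by
    intro M N I J h
    refine and_congr (hΦ M N (rI I) (rI J) (GEq.red n₀ q₀ some (Option.some_injective S)
      (fun _ => rfl) (fun _ _ => Iff.rfl) (fun _ _ => Iff.rfl)
      (GEq.mono (le_max_left n₀ n₁) (le_max_left q₀ q₁) h))) ?_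
    rw [← hψ, ← hψ]
    exact h2 M N I J (meq_of_geq n₁ q₁ (GEq.mono (le_max_right n₀ n₁) (le_max_right q₀ q₁) h))
  obtain ⟨⟨L, hL⟩, -⟩ := hT (fun n => K + w n) (growth58 hw K) (fun M J => Φ M (rI J) ∧ POrd J)
    (max n₀ n₁) (max q₀ q₁) hinv (N1 + 1) (fun n J hn hJ => by
      obtain ⟨h3, h4⟩ := hJ
      exact tree58 h4.1 (field58 h4 (h1 n (rI J) (by omega) h3)) (hK n (rI J) (by omega) h3))
  refine ⟨5 * (L + 1), fun n I hn hI l p hp => ?_⟩
  by_contra hcon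
  push Not at hcon
  obtain ⟨W, hW⟩ := linked58 hp (k := L + 1) (by omega) hcon.le
  obtain ⟨D⟩ := hL n (qI I (pQ58 p)) hn ⟨hI, pord_path58 hp⟩
  exact low (by omega) D W hW

end Pool.Agent.Helper29.GW
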