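import Pool.Agent.Helper29.GW.Base
import Pool.Agent.Helper29.MW.Eq

/-!
# Monadic second-order sentences as sentences of the larger logic

`tr`: the set variables become unary relation symbols.  `wspectrum_of_m`: the spectra of the sentences `MFm` are spectra of
sentences of MSO.
-/

set_option autoImplicit false

namespace Pool.Agent.Helper29.GW

open Pool.Agent.Helper20.Spectra Pool.Agent.Helper29.TD Pool.Agent.Helper29.CW Pool.Agent.Helper29.MW

/-- The translation: the relation symbol `s` becomes `τ s`, and the set variable `j` the symbol `σ j`. -/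
def tr {S : Type} {ar : S → ℕ} : {k m : ℕ} → MFm S ar k m → {S' : Type} → {ar' : S' → ℕ} →
    (τ : S → S') → (∀ s, ar s = ar' (τ s)) → (Fin m → S') → GFm S' ar' k
  | _, _, .eq i j, _, _, _, _, _ => .eq i j
  | _, _, .rel s f, _, _, τ, h, _ => .rel (τ s) (fun i => f (Fin.cast (h s).symm i))
  | _, _, .mem i j, _, _, _, _, σ => .rel (σ j) (fun _ => i)
  | _, _, .not φ, _, _, τ, h, σ => .not (tr φ τ h σ)
  | _, _, .and φ ψ, _, _, τ, h, σ => .and (tr φ τ h σ) (tr ψ τ h σ)
  | _, _, .ex φ, _, _, τ, h, σ => .ex (tr φ τ h σ)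
  | _, _, .exSet φ, S', ar', τ, h, σ => .exSet (tr φ (S' := Option S') (ar' := adAr ar' 1)
      (fun s => some (τ s)) h (Fin.cons none (fun j => some (σ j))))

theorem mon_tr {S : Type} {ar : S → ℕ} {k m : ℕ} (φ : MFm S ar k m) : ∀ {S' : Type} {ar' : S' → ℕ}
    (τ : S → S') (h : ∀ s, ar s = ar' (τ s)) (σ : Fin m → S'), (tr φ τ h σ).Mon := by
  induction φ with
  | eq i j => intro S' ar' τ h σ; exact trivial
  | rel s f => intro S' ar' τ h σ; exact trivial
  | mem i j => intro S' ar' τ h σ; exact trivial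
  | not φ ih => intro S' ar' τ h σ; exact ih τ h σ
  | and φ ψ ih₁ ih₂ => intro S' ar' τ h σ; exact ⟨ih₁ τ h σ, ih₂ τ h σ⟩
  | ex φ ih => intro S' ar' τ h σ; exact ih τ h σ
  | exSet φ ih =>
    intro S' ar' τ h σ
    exact ih (S' := Option S') (ar' := adAr ar' 1) (fun s => some (τ s)) h
      (Fin.cons none (fun j => some (σ j)))

theorem holds_tr {S : Type} {ar : S → ℕ} {M : Type} (I : Interp S ar M) {k m : ℕ}
    (φ : MFm S ar k m) : ∀ {S' : Type} {ar' : S' → ℕ} (τ : S → S') (h : ∀ s, ar s = ar' (τ s))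
    (σ : Fin m → S') (I' : Interp S' ar' M) (v : Fin k → M) (V : Fin m → Set M),
    IsRed τ h I I' → (∀ j x, x ∈ V j ↔ I' (σ j) (fun _ => x)) →
    ((tr φ τ h σ).Holds I' v ↔ φ.Holds I v V) := by
  induction φ with
  | eq i j => intro S' ar' τ h σ I' v V hI hV; exact Iff.rfl
  | rel s f =>
    intro S' ar' τ h σ I' v V hI hV
    exact (hI s (fun i => v (f i))).symm
  | mem i j =>
    intro S' ar' τ h σ I' v V hI hV
    exact (hV j (v i)).symm
  | not φ ih =>
    intro S' ar' τ h σ I' v V hI hV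
    exact not_congr (ih τ h σ I' v V hI hV)
  | and φ ψ ih₁ ih₂ =>
    intro S' ar' τ h σ I' v V hI hV
    exact and_congr (ih₁ τ h σ I' v V hI hV) (ih₂ τ h σ I' v V hI hV)
  | ex φ ih =>
    intro S' ar' τ h σ I' v V hI hV
    exact exists_congr fun x => ih τ h σ I' (Fin.cons x v) V hI hV
  | exSet φ ih =>
    intro S' ar' τ h σ I' v V hI hV
    have key : ∀ (X : Set M) (X' : (Fin 1 → M) → Prop), (∀ x, x ∈ X ↔ X' (fun _ => x)) →
        ((tr φ (S' := Option S') (ar' := adAr ar' 1) (fun s => some (τ s)) h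
          (Fin.cons none (fun j => some (σ j)))).Holds (adI I' X') v ↔
          φ.Holds I v (Fin.cons X V)) := by
      intro X X' hX
      refine ih (S' := Option S') (ar' := adAr ar' 1) (fun s => some (τ s)) h
        (Fin.cons none (fun j => some (σ j))) (adI I' X') v (Fin.cons X V) hI ?_
      intro j
      refine Fin.cases ?_ (fun j => ?_) j
      · intro x
        exact hX x
      · intro x
        exact hV j x
    constructor
    · rintro ⟨X', hX'⟩
      exact ⟨{x | X' (fun _ => x)}, (key {x | X' (fun _ => x)} X' (fun x => Iff.rfl)).1 hX'⟩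
    · rintro ⟨X, hX⟩
      exact ⟨fun u => u 0 ∈ X, (key X (fun u => u 0 ∈ X) (fun x => Iff.rfl)).2 hX⟩

theorem gsat_tr {S : Type} {ar : S → ℕ} {M : Type} (I : Interp S ar M) (φ : MFm S ar 0 0) :
    GSat I (tr φ id (fun _ => rfl) Fin.elim0) ↔ MSat I φ :=
  holds_tr I φ id (fun _ => rfl) Fin.elim0 I Fin.elim0 Fin.elim0 (fun _ _ => Iff.rfl)
    (fun j => j.elim0)

theorem wspectrum_of_m {μ : Width} {w : ℕ → ℕ} {A : Set ℕ} (h : MWidthSpectrum μ w A) :
    WSpectrum true μ w A := by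
  obtain ⟨S, hS, ar, φ, h1, h2, h3⟩ := h
  refine ⟨S, hS, ar, tr φ id (fun _ => rfl) Fin.elim0, fun _ => mon_tr φ _ _ _,
    fun hμ => ⟨mon_tr φ _ _ _, h1 hμ⟩, fun n I hn hI => h2 n I hn ((gsat_tr I φ).1 hI), fun n => ?_⟩
  rw [h3 n]
  exact and_congr Iff.rfl (exists_congr fun I => (gsat_tr I φ).symm)

end Pool.Agent.Helper29.GW
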